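import Pool.Agent.W606.UB.Stm

set_option autoImplicit false

namespace KN

namespace UB

open Finset Filter Topology
open scoped Classical

noncomputable section

/-- the size of the projection along the first axis -/
def prx (w : List Dir) : ℕ := ((path w).map Prod.snd).toFinset.card

theorem map_mem_K (h2 : T_rt) {d f : Dir} (hp : perp d f) {n : ℕ} {w : List Dir}
    (hw : w ∈ K U n) : w.map (rt d f) ∈ K U n := by
  obtain ⟨h1, hS, hU⟩ := Finset.mem_filter.1 hw
  obtain ⟨g1, g2⟩ := h2 d f hp w hS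
  refine Finset.mem_filter.2 ⟨mem_W.2 ?_, g1, ?_⟩
  · rw [List.length_map]
    exact mem_W.1 h1
  · rcases hU with hU | hU
    · exact Or.inl ((Relation.EqvGen.symm _ _ g2).trans _ _ _ hU)
    · exact Or.inr ((Relation.EqvGen.symm _ _ g2).trans _ _ _ hU)

theorem sum_rot (h2 : T_rt) (h3 : T_rtc) {d f : Dir} (hp : perp d f) (g : List Dir → ℕ)
    (n : ℕ) : ∑ w ∈ K U n, g (w.map (rt d f)) = ∑ w ∈ K U n, g w := by
  obtain ⟨⟨d', f', hp', -, -, e1, e2, -, -⟩, -⟩ := h3 d f hp
  refine Finset.sum_nbij' (fun w => w.map (rt d f)) (fun w => w.map (rt d' f')) ?_ ?_ ?_ ?_ ?_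
  · intro w hw
    exact map_mem_K h2 hp hw
  · intro w hw
    exact map_mem_K h2 hp' hw
  · intro w _
    simp only [List.map_map]
    have : (rt d' f' ∘ rt d f) = id := funext e1
    rw [this, List.map_id]
  · intro w _
    simp only [List.map_map]
    have : (rt d f ∘ rt d' f') = id := funext e2
    rw [this, List.map_id]
  · intro w _
    rfl

theorem prx_rot (h3 : T_rtc) {d f : Dir} (hp : perp d f) (w : List Dir) :
    prx (w.map (rt d f)) = ((path w).toFinset.image (fun p => (Rp d f p).2)).card := by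
  unfold prx
  rw [((h3 d f hp).2.2.1 w).2, List.map_map]
  congr 1
  ext q
  simp only [List.mem_toFinset, List.mem_map, Finset.mem_image, Function.comp]

theorem card_path {w : List Dir} (hw : SAP w) : w.length ≤ (path w).toFinset.card := by
  have h1 : (path w).tail.toFinset.card = w.length := by
    rw [List.toFinset_card_of_nodup hw.2.2, List.length_tail, path_length]
    rfl
  rw [← h1]
  refine Finset.card_le_card fun x hx => ?_
  rw [List.mem_toFinset] at hx ⊢
  exact List.mem_of_mem_tail hx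

theorem real_lem (n a b c : ℕ) (h : n ^ 2 ≤ a * b * c) :
    (n : ℝ) ^ (2 / 3 : ℝ) ≤ ((a + b + c : ℕ) : ℝ) := by
  have h1 : n ^ 2 ≤ (a + b + c) ^ 3 := by
    refine h.trans ?_
    have ha : a ≤ a + b + c := by omega
    have hb : b ≤ a + b + c := by omega
    have hc : c ≤ a + b + c := by omega
    calc a * b * c ≤ (a + b + c) * (a + b + c) * (a + b + c) :=
          Nat.mul_le_mul (Nat.mul_le_mul ha hb) hc
      _ = (a + b + c) ^ 3 := by ring
  have h2 : ((n : ℝ) ^ 2) ≤ ((a + b + c : ℕ) : ℝ) ^ 3 := by exact_mod_cast h1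
  have hn : (0 : ℝ) ≤ n := Nat.cast_nonneg n
  have hM : (0 : ℝ) ≤ ((a + b + c : ℕ) : ℝ) := Nat.cast_nonneg _
  have e1 : (n : ℝ) ^ (2 / 3 : ℝ) = ((n : ℝ) ^ 2) ^ (1 / 3 : ℝ) := by
    rw [← Real.rpow_natCast, ← Real.rpow_mul hn]
    norm_num
  have e2 : (((a + b + c : ℕ) : ℝ) ^ 3) ^ (1 / 3 : ℝ) = ((a + b + c : ℕ) : ℝ) := by
    rw [← Real.rpow_natCast, ← Real.rpow_mul hM]
    norm_num
  rw [e1, ← e2]
  exact Real.rpow_le_rpow (by positivity) h2 (by norm_num)

theorem proj_main (h1 : T_LW) (h2 : T_rt) (h3 : T_rtc) : P_proj := by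
  intro n _
  have hp2 : perp Dir.yp Dir.zp := by decide
  have hp3 : perp Dir.yp Dir.xp := by decide
  have key : ∀ w ∈ K U n, (n : ℝ) ^ (2 / 3 : ℝ) ≤
      ((prx w + prx (w.map (rt .yp .zp)) + prx (w.map (rt .yp .xp)) : ℕ) : ℝ) := by
    intro w hw
    obtain ⟨g1, hS, hU⟩ := Finset.mem_filter.1 hw
    have hn : w.length = n := mem_W.1 g1
    apply real_lem
    have c1 := card_path hS
    rw [hn] at c1
    have c2 := h1 (path w).toFinset
    have e1 : prx w = ((path w).toFinset.image (fun p => (p.2.1, p.2.2))).card := by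
      unfold prx
      congr 1
      ext q
      simp only [List.mem_toFinset, List.mem_map, Finset.mem_image]
    have e2 : prx (w.map (rt .yp .zp)) =
        ((path w).toFinset.image (fun p => (p.1, p.2.2))).card := by
      rw [prx_rot h3 hp2]
      congr 2
      funext p
      simp [Rp, cr, vec]
    have e3 : prx (w.map (rt .yp .xp)) =
        ((path w).toFinset.image (fun p => (p.1, p.2.1))).card := by
      rw [prx_rot h3 hp3]
      congr 2
      funext p
      simp [Rp, cr, vec]
    rw [e1, e2, e3]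
    exact (Nat.pow_le_pow_left c1 2).trans c2
  have hs := Finset.sum_le_sum key
  rw [Finset.sum_const, nsmul_eq_mul, ← Nat.cast_sum, Finset.sum_add_distrib,
    Finset.sum_add_distrib, sum_rot h2 h3 hp2 prx n, sum_rot h2 h3 hp3 prx n] at hs
  have ha : ((K U n).card : ℝ) = a U n := rfl
  rw [ha] at hs
  calc (n : ℝ) ^ (2 / 3 : ℝ) * a U n = (a U n : ℝ) * (n : ℝ) ^ (2 / 3 : ℝ) := by ring
    _ ≤ _ := hs
    _ = 3 * ∑ w ∈ K U n, (((path w).map Prod.snd).toFinset.card : ℝ) := by
      push_cast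
      unfold prx
      ring

end

end UB

end KN
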